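import Pool.Agent.H28.RC.Targets2
import Pool.Agent.H29.HK.PE

/-!
# Adjoining roots of unity: Frobenius averages (target `T_TWK`)
-/

set_option autoImplicit false
set_option linter.unusedSectionVars false

open NumberField
open scoped Pointwise

namespace Pool.Agent.H85.RC

open Pool.Agent.H28.RC Pool.Agent.H25.HK Pool.Agent.H25 Pool.Agent.H29.HK

namespace TWKaux

/-! ### sums along a surjective homomorphism -/

lemma sum_fib {G H : Type} [Group G] [Group H] [Finite G] [Finite H] (f : G →* H)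
    (hf : Function.Surjective f) (F : H → ℂ) :
    (Nat.card G : ℂ)⁻¹ * ∑ᶠ g, F (f g) = (Nat.card H : ℂ)⁻¹ * ∑ᶠ h, F h := by
  classical
  have := Fintype.ofFinite G
  have := Fintype.ofFinite H
  rw [finsum_eq_sum_of_fintype, finsum_eq_sum_of_fintype]
  have h1 : ∀ h : H, (Finset.univ.filter fun g => f g = h).card =
      (Finset.univ.filter fun g => f g = 1).card := by
    intro h
    exact MonoidHom.card_fiber_eq_of_mem_range f (hf h) (hf 1)
  set m := (Finset.univ.filter fun g => f g = 1).card with hm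
  have h2 : ∑ g, F (f g) = (m : ℂ) * ∑ h, F h := by
    rw [← Finset.sum_fiberwise Finset.univ (fun g => f g) (fun g => F (f g)), Finset.mul_sum]
    refine Finset.sum_congr rfl fun h _ => ?_
    rw [Finset.sum_congr rfl (g := fun _ => F h), Finset.sum_const, h1 h, nsmul_eq_mul]
    intro g hg
    rw [(Finset.mem_filter.1 hg).2]
  have h3 : Nat.card G = m * Nat.card H := by
    rw [Nat.card_eq_fintype_card, Nat.card_eq_fintype_card, ← Finset.card_univ,
      ← Finset.card_univ, Finset.card_eq_sum_card_fiberwise (f := fun g => f g) (t := Finset.univ)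
        (by intro g _; simp), Finset.sum_congr rfl (g := fun _ => m)]
    · rw [Finset.sum_const, smul_eq_mul, mul_comm]
    · intro h _
      exact h1 h
  have hm0 : (m : ℂ) ≠ 0 := by
    rw [Nat.cast_ne_zero]
    rintro h0
    rw [h0, zero_mul] at h3
    exact (Nat.card_pos (α := G)).ne' h3
  rw [h2, h3, Nat.cast_mul, mul_inv, mul_comm ((m : ℂ)⁻¹), mul_assoc, inv_mul_cancel_left₀ hm0]

/-! ### the cyclotomic character -/

section cyc

variable {K : Type} [Field K] [NumberField K]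

lemma coe_smul' (g : K ≃ₐ[ℚ] K) (x : 𝓞 K) : ((g • x : 𝓞 K) : K) = g (x : K) := rfl

lemma cyc_apply {q : ℕ} [NeZero q] {ζ : K} (hζ : IsPrimitiveRoot ζ q) {p : ℕ} [hp : Fact p.Prime]
    (hcop : p.Coprime q) {P : Ideal (𝓞 K)} (hP : P ∈ pr K p) (g : K ≃ₐ[ℚ] K) (n : ℕ)
    (h : g ∈ frs (K ≃ₐ[ℚ] K) P n) : ((hζ.autToPow ℚ g : (ZMod q)ˣ) : ZMod q) = n := by
  have hPmax := pr_max hP
  have := (mem_pr.1 hP).1
  have h0 : IsPrimitiveRoot (Ideal.Quotient.mk P hζ.toInteger) q := by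
    refine hζ.toInteger_isPrimitiveRoot.idealQuotient_mk ?_ ?_
    · simpa using hPmax.ne_top
    · rw [Ideal.absNorm_apply, Submodule.cardQuot_apply, pr_card hP]
      exact Nat.Coprime.pow_left _ hcop
  have h1 : g • hζ.toInteger = hζ.toInteger ^ ((hζ.autToPow ℚ g : (ZMod q)ˣ) : ZMod q).val := by
    apply RingOfIntegers.ext
    rw [coe_smul']
    have h2 := hζ.autToPow_spec ℚ g
    exact h2.symm.trans (map_pow (algebraMap (𝓞 K) K) hζ.toInteger _).symm
  have h2 := h hζ.toInteger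
  rw [← Ideal.Quotient.eq, h1, map_pow, map_pow, (h0.isOfFinOrder (NeZero.ne _)).pow_inj_mod,
    ← h0.eq_orderOf, ← ZMod.natCast_eq_natCast_iff', ZMod.natCast_zmod_val] at h2
  exact h2

end cyc

/-! ### restriction to a normal subfield -/

section tower

variable {K K' : Type} [Field K] [NumberField K] [IsGalois ℚ K] [Field K'] [NumberField K']
  [IsGalois ℚ K'] [Algebra K K']

variable (K K') in
/-- restriction -/
noncomputable def rs : (K' ≃ₐ[ℚ] K') →* (K ≃ₐ[ℚ] K) := AlgEquiv.restrictNormalHom K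

lemma rs_apply (g : K' ≃ₐ[ℚ] K') (x : K) : algebraMap K K' (rs K K' g x) = g (algebraMap K K' x) :=
  AlgEquiv.restrictNormal_commutes g K x

lemma rs_smul (g : K' ≃ₐ[ℚ] K') (x : 𝓞 K) :
    algebraMap (𝓞 K) (𝓞 K') (rs K K' g • x) = g • algebraMap (𝓞 K) (𝓞 K') x := by
  apply RingOfIntegers.ext
  rw [coe_smul']
  exact rs_apply g (x : K)

variable {P : Ideal (𝓞 K)} {P' : Ideal (𝓞 K')} [P'.LiesOver P]

lemma frs_rs {n : ℕ} {g : K' ≃ₐ[ℚ] K'} (h : g ∈ frs (K' ≃ₐ[ℚ] K') P' n) :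
    rs K K' g ∈ frs (K ≃ₐ[ℚ] K) P n := by
  intro x
  rw [Ideal.over_def P' P, Ideal.mem_comap, map_sub, map_pow, rs_smul]
  exact h _

lemma inert_frs {L : Type} [Field L] [NumberField L] {Q : Ideal (𝓞 L)} {g : L ≃ₐ[ℚ] L} :
    g ∈ Q.inertia (L ≃ₐ[ℚ] L) ↔ g ∈ frs (L ≃ₐ[ℚ] L) Q 1 := by
  rw [mem_inert]
  refine forall_congr' fun x => ?_
  rw [pow_one]

variable (P P') in
/-- the restriction of inertia groups -/
noncomputable def rI : (P'.inertia (K' ≃ₐ[ℚ] K')) →* (P.inertia (K ≃ₐ[ℚ] K)) :=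
  ((rs K K').comp (P'.inertia (K' ≃ₐ[ℚ] K')).subtype).codRestrict _ fun g =>
    inert_frs.2 (frs_rs (inert_frs.1 g.2))

lemma rI_coe (g : P'.inertia (K' ≃ₐ[ℚ] K')) : ((rI P P' g : P.inertia (K ≃ₐ[ℚ] K)) :
    K ≃ₐ[ℚ] K) = rs K K' g := rfl

/-- an automorphism which is trivial on `K` -/
noncomputable def liftK (g : K' ≃ₐ[ℚ] K') (h : rs K K' g = 1) : K' ≃ₐ[K] K' :=
  AlgEquiv.ofRingEquiv (f := g.toRingEquiv) fun x => by
    have h1 := rs_apply (K := K) g x
    rw [h] at h1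
    exact h1.symm

lemma card_ker_le [P'.IsPrime] (n : ℕ)
    (hn : Nat.card (P'.inertia (K' ≃ₐ[K] K')) = n) : Nat.card (rI P P').ker ≤ n := by
  rw [← hn]
  have hfin : Finite (K' ≃ₐ[K] K') := by
    have : FiniteDimensional K K' := Module.Finite.of_restrictScalars_finite ℚ K K'
    infer_instance
  have hk : ∀ g : (rI P P').ker, rs K K' (g.1 : K' ≃ₐ[ℚ] K') = 1 := by
    intro g
    have h1 := g.2
    rw [MonoidHom.mem_ker] at h1
    rw [← rI_coe (P := P), h1]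
    rfl
  refine Nat.card_le_card_of_injective (fun g : (rI P P').ker =>
    (⟨liftK (g.1 : K' ≃ₐ[ℚ] K') (hk g), ?_⟩ : P'.inertia (K' ≃ₐ[K] K'))) ?_
  · rw [mem_inert]
    intro x
    exact mem_inert.1 g.1.2 x
  · intro g g' h
    have h1 := congrArg (fun t : P'.inertia (K' ≃ₐ[K] K') => (t : K' ≃ₐ[K] K')) h
    apply Subtype.ext
    apply Subtype.ext
    ext x
    exact congrArg (fun t : K' ≃ₐ[K] K' => t x) h1

lemma rI_surj {p : ℕ} [hp : Fact p.Prime] (hP : P ∈ pr K p) (hP' : P' ∈ pr K' p) :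
    Function.Surjective (rI P P') := by
  have hPmax := pr_max hP
  have hPmax' := pr_max hP'
  have hP1 := (mem_pr.1 hP).1
  have hP2 := (mem_pr.1 hP).2
  have hP1' := (mem_pr.1 hP').1
  have hP2' := (mem_pr.1 hP').2
  have hfd : FiniteDimensional K K' := Module.Finite.of_restrictScalars_finite ℚ K K'
  have hgal : IsGalois K K' := IsGalois.tower_top_of_isGalois ℚ K K'
  have g1 : IsGaloisGroup (K' ≃ₐ[K] K') (𝓞 K) (𝓞 K') :=
    IsGaloisGroup.of_isFractionRing (K' ≃ₐ[K] K') (𝓞 K) (𝓞 K') K K'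
  have c1 := Ideal.card_inertia_eq_ramificationIdxIn (G := (K ≃ₐ[ℚ] K))
    (Ideal.span {(p : ℤ)}) P
  have c2 := Ideal.card_inertia_eq_ramificationIdxIn (G := (K' ≃ₐ[ℚ] K'))
    (Ideal.span {(p : ℤ)}) P'
  have c3 := Ideal.card_inertia_eq_ramificationIdxIn (G := (K' ≃ₐ[K] K')) P P'
  have hne : Nonempty (P.primesOver (𝓞 K')) := ⟨⟨P', hP1', inferInstance⟩⟩
  have c4 := Ideal.ramificationIdxIn_mul_ramificationIdxIn (p := Ideal.span {(p : ℤ)}) P
    (K ≃ₐ[ℚ] K) (𝓞 K') (K' ≃ₐ[ℚ] K') (K' ≃ₐ[K] K')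
  rw [← c1, ← c2, ← c3] at c4
  have c5 := card_ker_le (P := P) (P' := P') _ rfl
  have c6 := (rI P P').ker.card_mul_index
  rw [Subgroup.index_ker] at c6
  have c7 : Nat.card (P.inertia (K ≃ₐ[ℚ] K)) ≤ Nat.card (rI P P').range := by
    have h1 : 0 < Nat.card (rI P P').ker := Nat.card_pos
    refine Nat.le_of_mul_le_mul_left ?_ h1
    rw [c6, ← c4, mul_comm]
    exact Nat.mul_le_mul_left _ c5
  have c8 : (rI P P').range = ⊤ := by
    apply Subgroup.eq_top_of_le_card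
    exact c7
  exact MonoidHom.range_eq_top.1 c8

end tower

section gal

variable (K : Type) [Field K] [NumberField K] [IsGalois ℚ K] (q : ℕ) [NeZero q]

lemma isGalois_cyc : IsGalois ℚ (CyclotomicField q K) := by
  obtain ⟨f, hf1, hf2⟩ := IsGalois.is_separable_splitting_field ℚ K
  have h1 : Polynomial.IsSplittingField K (CyclotomicField q K)
      ((Polynomial.X ^ q - 1 : Polynomial ℚ).map (algebraMap ℚ K)) := by
    have h2 := IsCyclotomicExtension.isSplittingField_X_pow_sub_one q K (CyclotomicField q K)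
    simpa using h2
  have h3 : Polynomial.IsSplittingField ℚ (CyclotomicField q K)
      (f * (Polynomial.X ^ q - 1 : Polynomial ℚ)) :=
    Polynomial.IsSplittingField.mul (K := K) (CyclotomicField q K) _ _ hf1.ne_zero
      (Polynomial.X_pow_sub_C_ne_zero (NeZero.pos q) 1)
  have h4 : Normal ℚ (CyclotomicField q K) := Normal.of_isSplittingField
    (f * (Polynomial.X ^ q - 1 : Polynomial ℚ))
  exact ⟨⟩

end gal

end TWKaux

open TWKaux

/-- (TWK) adjoining the `q`-th roots of unity. -/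
theorem pf_TWK : T_TWK := by
  intro R q _
  have hnf : NumberField (CyclotomicField q R.K) :=
    IsCyclotomicExtension.numberField {q} R.K (CyclotomicField q R.K)
  have hgal : IsGalois ℚ (CyclotomicField q R.K) := isGalois_cyc R.K q
  -- primes
  have hRP : ∀ p : Nat.Primes, @Membership.mem _ _ _
      (@pr R.K _ _ (p : ℕ) ⟨p.2⟩) (R.P p) := by
    intro p
    have hp : Fact (p : ℕ).Prime := ⟨p.2⟩
    have := R.P_prime p
    rw [mem_pr]
    refine ⟨inferInstance, ⟨?_⟩⟩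
    have hmax : (Ideal.span {((p : ℕ) : ℤ)}).IsMaximal := inferInstance
    apply hmax.eq_of_le
    · exact (Ideal.IsPrime.under ℤ (R.P p)).ne_top
    · rw [Ideal.span_singleton_le_iff_mem, Ideal.mem_comap]
      simpa using R.P_mem p
  have hex : ∀ p : Nat.Primes, ∃ Q : Ideal (𝓞 (CyclotomicField q R.K)), Q.IsPrime ∧
      Q.LiesOver (R.P p) ∧ ∃ F : (CyclotomicField q R.K) ≃ₐ[ℚ] (CyclotomicField q R.K),
        ∀ x : 𝓞 (CyclotomicField q R.K), F • x - x ^ (p : ℕ) ∈ Q := by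
    intro p
    have hp : Fact (p : ℕ).Prime := ⟨p.2⟩
    have := R.P_prime p
    have hP2 := (mem_pr.1 (hRP p)).2
    obtain ⟨⟨Q, hQ1, hQ2⟩⟩ : Nonempty ((R.P p).primesOver (𝓞 (CyclotomicField q R.K))) :=
      inferInstance
    have hQ3 : Q.LiesOver (Ideal.span {((p : ℕ) : ℤ)}) :=
      Ideal.LiesOver.trans Q (R.P p) (Ideal.span {((p : ℕ) : ℤ)})
    have hQ4 : Q ∈ pr (CyclotomicField q R.K) (p : ℕ) := mem_pr.2 ⟨hQ1, hQ3⟩
    have hQ5 := pr_max hQ4
    refine ⟨Q, hQ1, hQ2, ?_⟩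
    obtain ⟨F, hF⟩ := IsArithFrobAt.exists_of_isInvariant ℤ
      ((CyclotomicField q R.K) ≃ₐ[ℚ] (CyclotomicField q R.K)) Q
    refine ⟨F, fun x => ?_⟩
    have h1 := hF x
    have h2 : Nat.card (ℤ ⧸ Q.under ℤ) = (p : ℕ) := by
      rw [← Ideal.over_def Q (Ideal.span {((p : ℕ) : ℤ)}), Int.card_ideal_quot]
    rw [h2] at h1
    exact h1
  choose P' hP1 hP2 Fr' hFr' using hex
  let res : ((CyclotomicField q R.K) ≃ₐ[ℚ] (CyclotomicField q R.K)) →* (R.K ≃ₐ[ℚ] R.K) :=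
    rs R.K (CyclotomicField q R.K)
  have hζ : IsPrimitiveRoot (IsCyclotomicExtension.zeta q R.K (CyclotomicField q R.K)) q :=
    IsCyclotomicExtension.zeta_spec q R.K (CyclotomicField q R.K)
  let R' : DL.ArtinRep :=
    { K := CyclotomicField q R.K
      fK := inferInstance
      nK := hnf
      gK := hgal
      V := R.V
      aV := R.aV
      mV := R.mV
      dV := R.dV
      rho := R.rho.comp res
      P := P'
      P_prime := hP1
      P_mem := fun p => by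
        have h1 := R.P_mem p
        have h2 := hP2 p
        rw [Ideal.over_def (P' p) (R.P p), Ideal.mem_comap, map_natCast] at h1
        exact h1
      Fr := Fr'
      Fr_spec := hFr' }
  refine ⟨R', res, hζ.autToPow ℚ, ?_⟩
  intro p hcop θ φ k
  have hp : Fact (p : ℕ).Prime := ⟨p.2⟩
  have hPp := hRP p
  have h1 := hP1 p
  have h2 := hP2 p
  have h3 : (P' p).LiesOver (Ideal.span {((p : ℕ) : ℤ)}) := by
    have := (mem_pr.1 hPp).2
    exact Ideal.LiesOver.trans (P' p) (R.P p) (Ideal.span {((p : ℕ) : ℤ)})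
  have hP'p : P' p ∈ pr (CyclotomicField q R.K) (p : ℕ) := mem_pr.2 ⟨h1, h3⟩
  have hmax := pr_max hPp
  -- the values of the cyclotomic character
  have hcF : ((hζ.autToPow ℚ (Fr' p) : (ZMod q)ˣ) : ZMod q) = (p : ℕ) :=
    cyc_apply hζ hcop hP'p (Fr' p) (p : ℕ) (hFr' p)
  have hcI : ∀ g ∈ (P' p).inertia ((CyclotomicField q R.K) ≃ₐ[ℚ] (CyclotomicField q R.K)),
      ((hζ.autToPow ℚ g : (ZMod q)ˣ) : ZMod q) = 1 := by
    intro g hg
    have h4 := cyc_apply hζ hcop hP'p g 1 (inert_frs.1 hg)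
    rw [h4, Nat.cast_one]
  -- the two Frobenius elements
  obtain ⟨hs, hFk⟩ := frob_pow (R.P p) (p : ℕ) hp.out.ne_zero (R.Fr p) (R.Fr_spec p) k
  have hresF : res (Fr' p) ∈ frs (R.K ≃ₐ[ℚ] R.K) (R.P p) (p : ℕ) := frs_rs (hFr' p)
  obtain ⟨hs', hFk'⟩ := frob_pow (R.P p) (p : ℕ) hp.out.ne_zero (res (Fr' p)) hresF k
  have hi0 := inv_mul_mem_inert hs hFk hFk'
  -- the computation
  have e1 : tp R' p k (fun g => φ (res g) * θ ((hζ.autToPow ℚ g : (ZMod q)ˣ) : ZMod q)) =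
      (Nat.card ((P' p).inertia ((CyclotomicField q R.K) ≃ₐ[ℚ] (CyclotomicField q R.K))) : ℂ)⁻¹ *
        ∑ᶠ g : (P' p).inertia ((CyclotomicField q R.K) ≃ₐ[ℚ] (CyclotomicField q R.K)),
          θ ((p : ℕ) : ZMod q) ^ k * φ (res (Fr' p) ^ k * (rI (R.P p) (P' p) g :
            (R.P p).inertia (R.K ≃ₐ[ℚ] R.K))) := by
    unfold tp
    congr 1
    refine finsum_congr fun g => ?_
    show φ (res (Fr' p ^ k * (g : (CyclotomicField q R.K) ≃ₐ[ℚ] (CyclotomicField q R.K)))) *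
      θ ((hζ.autToPow ℚ (Fr' p ^ k * (g : (CyclotomicField q R.K) ≃ₐ[ℚ]
        (CyclotomicField q R.K))) : (ZMod q)ˣ) : ZMod q) = _
    rw [map_mul, map_pow, map_mul, map_pow, Units.val_mul, Units.val_pow_eq_pow_val, hcF,
      hcI _ g.2, mul_one, map_pow, mul_comm]
    rfl
  have e2 := sum_fib (rI (R.P p) (P' p)) (rI_surj hPp hP'p)
    (fun h => θ ((p : ℕ) : ZMod q) ^ k * φ (res (Fr' p) ^ k * (h : R.K ≃ₐ[ℚ] R.K)))
  rw [e1, e2]
  have := Fintype.ofFinite ((R.P p).inertia (R.K ≃ₐ[ℚ] R.K))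
  unfold tp
  have e3 : ∑ᶠ g : R.In p, φ (R.Fr p ^ k * (g : R.K ≃ₐ[ℚ] R.K)) =
      ∑ᶠ g : (R.P p).inertia (R.K ≃ₐ[ℚ] R.K), φ (R.Fr p ^ k * (g : R.K ≃ₐ[ℚ] R.K)) := rfl
  have e4 : Nat.card (R.In p) = Nat.card ((R.P p).inertia (R.K ≃ₐ[ℚ] R.K)) := rfl
  rw [e3, e4, finsum_eq_sum_of_fintype, finsum_eq_sum_of_fintype, ← Finset.mul_sum]
  have e5 : ∑ g : (R.P p).inertia (R.K ≃ₐ[ℚ] R.K), φ (res (Fr' p) ^ k * (g : R.K ≃ₐ[ℚ] R.K)) =
      ∑ g : (R.P p).inertia (R.K ≃ₐ[ℚ] R.K), φ (R.Fr p ^ k * (g : R.K ≃ₐ[ℚ] R.K)) := by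
    refine Fintype.sum_equiv (Equiv.mulLeft ⟨_, hi0⟩) _ _ fun g => ?_
    congr 1
    show _ = R.Fr p ^ k * ((R.Fr p ^ k)⁻¹ * res (Fr' p) ^ k * (g : R.K ≃ₐ[ℚ] R.K))
    group
  rw [e5]
  ring

end Pool.Agent.H85.RC
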